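import Mathlib

set_option autoImplicit false

namespace Pool.Agent.Lib.MP_8e46bf_ag

open Finset

/-- The squared Vandermonde product as the determinant of the Hankel matrix of power sums. -/
lemma prod_sq_eq_det (r : Fin 6 → ℂ) :
    ∏ a : Fin 6, ∏ b ∈ Finset.Ioi a, (r a - r b) ^ 2 =
      Matrix.det (Matrix.of fun i j : Fin 6 => ∑ k, r k ^ ((i : ℕ) + (j : ℕ))) := by
  have h1 : (Matrix.of fun i j : Fin 6 => ∑ k, r k ^ ((i : ℕ) + (j : ℕ))) =
      (Matrix.vandermonde r).transpose * Matrix.vandermonde r := by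
    ext i j
    rw [Matrix.vandermonde_transpose_mul_vandermonde]
    simp
  rw [h1, Matrix.det_mul, Matrix.det_transpose, Matrix.det_vandermonde, ← sq,
    ← Finset.prod_pow]
  refine Finset.prod_congr rfl fun a _ => ?_
  rw [← Finset.prod_pow]
  refine Finset.prod_congr rfl fun b _ => ?_
  ring

lemma coeffs_zero (c0 c1 c2 c3 c4 c5 : ℂ)
    (h : ∀ x : ℂ, c5 * x ^ 5 + c4 * x ^ 4 + c3 * x ^ 3 + c2 * x ^ 2 + c1 * x + c0 = 0) :
    c0 = 0 ∧ c1 = 0 ∧ c2 = 0 ∧ c3 = 0 ∧ c4 = 0 ∧ c5 = 0 := by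
  have h0 := h 0
  have h1 := h 1
  have h2 := h (-1)
  have h3 := h 2
  have h4 := h (-2)
  have h5 := h 3
  have e0 : c0 = 0 := by linear_combination h0
  have e4 : c4 = 0 := by linear_combination (1/24 : ℂ) * (h3 + h4) - (1/6 : ℂ) * (h1 + h2) + (1/4 : ℂ) * e0
  have e2 : c2 = 0 := by linear_combination (1/2 : ℂ) * (h1 + h2) - e4 - e0
  have e5 : c5 = 0 := by
    linear_combination (1/120 : ℂ) * (h5 - 81 * e4 - 9 * e2 - e0) - (1/60 : ℂ) * (h3 - h4)
      + (1/48 : ℂ) * (h1 - h2)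
  have e3 : c3 = 0 := by
    linear_combination (1/12 : ℂ) * (h3 - h4) - (1/6 : ℂ) * (h1 - h2) - 5 * e5
  have e1 : c1 = 0 := by
    linear_combination (1/2 : ℂ) * (h1 - h2) - e5 - e3
  exact ⟨e0, e1, e2, e3, e4, e5⟩

end Pool.Agent.Lib.MP_8e46bf_ag
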