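import Mathlib
import Pool.Agent.Lib.MP_8e46bf_ag.Base

set_option autoImplicit false

namespace Pool.Agent.Lib.MP_8e46bf_ag

open Finset

lemma newton (r : Fin 6 → ℂ) (E1 E2 E3 E4 E5 E6 : ℂ)
    (h : ∀ x : ℂ, x ^ 6 - E1 * x ^ 5 + E2 * x ^ 4 - E3 * x ^ 3 + E4 * x ^ 2 - E5 * x + E6
      = ∏ j, (x - r j)) :
    (∑ k, r k ^ 0 = 6) ∧
    (∑ k, r k ^ 1 = E1) ∧
    (∑ k, r k ^ 2 = E1 * E1 - 2 * E2) ∧
    (∑ k, r k ^ 3 = E1 * (∑ k, r k ^ 2) - E2 * (∑ k, r k ^ 1) + 3 * E3) ∧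
    (∑ k, r k ^ 4 = E1 * (∑ k, r k ^ 3) - E2 * (∑ k, r k ^ 2) + E3 * (∑ k, r k ^ 1) - 4 * E4) ∧
    (∑ k, r k ^ 5 = E1 * (∑ k, r k ^ 4) - E2 * (∑ k, r k ^ 3) + E3 * (∑ k, r k ^ 2)
      - E4 * (∑ k, r k ^ 1) + 5 * E5) ∧
    (∀ n : ℕ, ∑ k, r k ^ (n + 6) = E1 * (∑ k, r k ^ (n + 5)) - E2 * (∑ k, r k ^ (n + 4))
      + E3 * (∑ k, r k ^ (n + 3)) - E4 * (∑ k, r k ^ (n + 2)) + E5 * (∑ k, r k ^ (n + 1))
      - E6 * (∑ k, r k ^ n)) := by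
  have hroot : ∀ k, r k ^ 6 = E1 * r k ^ 5 - E2 * r k ^ 4 + E3 * r k ^ 3 - E4 * r k ^ 2
      + E5 * r k - E6 := by
    intro k
    have h1 := h (r k)
    have h2 : ∏ j, (r k - r j) = 0 := Finset.prod_eq_zero (Finset.mem_univ k) (sub_self _)
    rw [h2] at h1
    linear_combination h1
  obtain ⟨h6, h5, h4, h3, h2, h1⟩ := coeffs_zero
    (r 0 * r 1 * r 2 * r 3 * r 4 * r 5 - E6)
    (-(r 0 * r 1 * r 2 * r 3 * r 4 + r 0 * r 1 * r 2 * r 3 * r 5 + r 0 * r 1 * r 2 * r 4 * r 5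
      + r 0 * r 1 * r 3 * r 4 * r 5 + r 0 * r 2 * r 3 * r 4 * r 5 + r 1 * r 2 * r 3 * r 4 * r 5)
      + E5)
    (r 0 * r 1 * r 2 * r 3 + r 0 * r 1 * r 2 * r 4 + r 0 * r 1 * r 2 * r 5 + r 0 * r 1 * r 3 * r 4
      + r 0 * r 1 * r 3 * r 5 + r 0 * r 1 * r 4 * r 5 + r 0 * r 2 * r 3 * r 4 + r 0 * r 2 * r 3 * r 5
      + r 0 * r 2 * r 4 * r 5 + r 0 * r 3 * r 4 * r 5 + r 1 * r 2 * r 3 * r 4 + r 1 * r 2 * r 3 * r 5
      + r 1 * r 2 * r 4 * r 5 + r 1 * r 3 * r 4 * r 5 + r 2 * r 3 * r 4 * r 5 - E4)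
    (-(r 0 * r 1 * r 2 + r 0 * r 1 * r 3 + r 0 * r 1 * r 4 + r 0 * r 1 * r 5 + r 0 * r 2 * r 3
      + r 0 * r 2 * r 4 + r 0 * r 2 * r 5 + r 0 * r 3 * r 4 + r 0 * r 3 * r 5 + r 0 * r 4 * r 5
      + r 1 * r 2 * r 3 + r 1 * r 2 * r 4 + r 1 * r 2 * r 5 + r 1 * r 3 * r 4 + r 1 * r 3 * r 5
      + r 1 * r 4 * r 5 + r 2 * r 3 * r 4 + r 2 * r 3 * r 5 + r 2 * r 4 * r 5 + r 3 * r 4 * r 5)
      + E3)
    (r 0 * r 1 + r 0 * r 2 + r 0 * r 3 + r 0 * r 4 + r 0 * r 5 + r 1 * r 2 + r 1 * r 3 + r 1 * r 4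
      + r 1 * r 5 + r 2 * r 3 + r 2 * r 4 + r 2 * r 5 + r 3 * r 4 + r 3 * r 5 + r 4 * r 5 - E2)
    (-(r 0 + r 1 + r 2 + r 3 + r 4 + r 5) + E1)
    (by
      intro x
      have hx := h x
      simp only [Fin.prod_univ_six] at hx
      linear_combination -hx)
  refine ⟨by simp, ?_, ?_, ?_, ?_, ?_, ?_⟩
  · simp only [Fin.sum_univ_six]; linear_combination -h1
  · have e1 : E1 = r 0 + r 1 + r 2 + r 3 + r 4 + r 5 := by linear_combination h1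
    have e2 := (sub_eq_zero.mp h2).symm
    simp only [Fin.sum_univ_six]; rw [e1, e2]; ring
  · have e1 : E1 = r 0 + r 1 + r 2 + r 3 + r 4 + r 5 := by linear_combination h1
    have e2 := (sub_eq_zero.mp h2).symm
    have e3 := (neg_add_eq_zero.mp h3).symm
    simp only [Fin.sum_univ_six]; rw [e1, e2, e3]; ring
  · have e1 : E1 = r 0 + r 1 + r 2 + r 3 + r 4 + r 5 := by linear_combination h1
    have e2 := (sub_eq_zero.mp h2).symm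
    have e3 := (neg_add_eq_zero.mp h3).symm
    have e4 := (sub_eq_zero.mp h4).symm
    simp only [Fin.sum_univ_six]; rw [e1, e2, e3, e4]; ring
  · have e1 : E1 = r 0 + r 1 + r 2 + r 3 + r 4 + r 5 := by linear_combination h1
    have e2 := (sub_eq_zero.mp h2).symm
    have e3 := (neg_add_eq_zero.mp h3).symm
    have e4 := (sub_eq_zero.mp h4).symm
    have e5 := (neg_add_eq_zero.mp h5).symm
    simp only [Fin.sum_univ_six]; rw [e1, e2, e3, e4, e5]; ring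
  · intro n
    have : ∀ k, r k ^ (n + 6) = E1 * r k ^ (n + 5) - E2 * r k ^ (n + 4) + E3 * r k ^ (n + 3)
        - E4 * r k ^ (n + 2) + E5 * r k ^ (n + 1) - E6 * r k ^ n := by
      intro k
      have := hroot k
      rw [pow_add, this]
      ring
    simp only [this, Finset.sum_sub_distrib, Finset.sum_add_distrib, ← Finset.mul_sum]

end Pool.Agent.Lib.MP_8e46bf_ag
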