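import Mathlib
import Pool.Agent.Lib.MP_8e46bf_ag.Newton

set_option autoImplicit false

namespace Pool.Agent.Lib.MP_8e46bf_ag

open Finset Polynomial

/-- The configuration: `±700, ±707, ±714` and a last point `t`. -/
def zc (t : ℝ) : Fin 7 → ℝ := ![700, 707, 714, -700, -707, -714, t]

lemma expand (t : ℝ) (r : Fin 6 → ℂ)
    (h : Polynomial.derivative (∏ i : Fin 7, (Polynomial.X - Polynomial.C ((zc t i : ℝ) : ℂ))) =
      Polynomial.C ((7 : ℕ) : ℂ) * ∏ j : Fin 6, (Polynomial.X - Polynomial.C (r j))) :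
    ∀ x : ℂ, x ^ 6 - (6 * t / 7) * x ^ 5 + (-1071175) * x ^ 4 - (- (4 * t / 7) * 1499645) * x ^ 3
      + 321234458916 * x ^ 2 - (2 * t / 7 * 749547070804) * x + (-17837471456280000)
      = ∏ j, (x - r j) := by
  intro x
  have hx := congrArg (Polynomial.eval x) h
  simp only [zc, Fin.prod_univ_succ, Fin.prod_univ_zero, Polynomial.derivative_mul,
    Polynomial.derivative_sub, Polynomial.derivative_X, Polynomial.derivative_C,
    Polynomial.derivative_one, Polynomial.eval_mul, Polynomial.eval_add, Polynomial.eval_sub,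
    Polynomial.eval_X, Polynomial.eval_C, Polynomial.eval_one, Polynomial.eval_zero] at hx
  simp at hx
  simp [Fin.prod_univ_succ]
  linear_combination (1/7 : ℂ) * hx

end Pool.Agent.Lib.MP_8e46bf_ag
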