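import Mathlib
import Pool.Agent.Lib.MP_8e46bf_ag.Value
import Pool.Agent.Lib.MP_8e46bf_ag.Dets

set_option autoImplicit false

namespace Pool.Agent.Lib.MP_8e46bf_ag

open Finset Polynomial

lemma valueA (r : Fin 6 → ℂ)
    (h : Polynomial.derivative (∏ i : Fin 7, (Polynomial.X - Polynomial.C ((zc 0 i : ℝ) : ℂ))) =
      Polynomial.C ((7 : ℕ) : ℂ) * ∏ j : Fin 6, (Polynomial.X - Polynomial.C (r j))) :
    ∏ a : Fin 6, ∏ b ∈ Finset.Ioi a, (r a - r b) ^ 2 = 22125558845833736355533586337250706521053141321498383072648483369725202923520000 := by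
  have hx := expand 0 r h
  obtain ⟨n0, n1, n2, n3, n4, n5, n6⟩ := newton r 0 (-1071175) 0 321234458916 0 (-17837471456280000)
    (by
      intro x
      rw [← hx x]
      push_cast
      ring)
  have p0 : ∑ k, r k ^ 0 = (6 : ℂ) := n0
  have p1 : ∑ k, r k ^ 1 = (0 : ℂ) := by rw [n1]
  have p2 : ∑ k, r k ^ 2 = (2142350 : ℂ) := by rw [n2]; norm_num
  have p3 : ∑ k, r k ^ 3 = (0 : ℂ) := by rw [n3, p2, p1]; norm_num
  have p4 : ∑ k, r k ^ 4 = (1009893925586 : ℂ) := by rw [n4, p3, p2, p1]; norm_num
  have p5 : ∑ k, r k ^ 5 = (0 : ℂ) := by rw [n5, p4, p3, p2, p1]; norm_num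
  have p6 : ∑ k, r k ^ 6 = (500601311418570950 : ℂ) := by
    have := n6 0
    norm_num only at this
    rw [this, p5, p4, p3, p2, p1, p0]; norm_num
  have p7 : ∑ k, r k ^ 7 = (0 : ℂ) := by
    have := n6 1
    norm_num only at this
    rw [this, p6, p5, p4, p3, p2, p1]; norm_num
  have p8 : ∑ k, r k ^ 8 = (250032987984975317141474 : ℂ) := by
    have := n6 2
    norm_num only at this
    rw [this, p7, p6, p5, p4, p3, p2]; norm_num
  have p9 : ∑ k, r k ^ 9 = (0 : ℂ) := by
    have := n6 3
    norm_num only at this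
    rw [this, p8, p7, p6, p5, p4, p3]; norm_num
  have p10 : ∑ k, r k ^ 10 = (125032648570132117194192401750 : ℂ) := by
    have := n6 4
    norm_num only at this
    rw [this, p9, p8, p7, p6, p5, p4]; norm_num
  rw [prod_sq_eq_det, ← detA]
  congr 1
  ext i j
  fin_cases i <;> fin_cases j <;>
    first
    | exact p0
    | exact p1
    | exact p2
    | exact p3
    | exact p4
    | exact p5
    | exact p6
    | exact p7
    | exact p8
    | exact p9
    | exact p10

lemma valueB (r : Fin 6 → ℂ)
    (h : Polynomial.derivative (∏ i : Fin 7, (Polynomial.X - Polynomial.C ((zc 70000 i : ℝ) : ℂ))) =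
      Polynomial.C ((7 : ℕ) : ℂ) * ∏ j : Fin 6, (Polynomial.X - Polynomial.C (r j))) :
    ∏ a : Fin 6, ∏ b ∈ Finset.Ioi a, (r a - r b) ^ 2 = 2573931854437100717353696585699588537178623740056682123883905150076976134656058104072508281323520000 := by
  have hx := expand 70000 r h
  obtain ⟨n0, n1, n2, n3, n4, n5, n6⟩ := newton r 60000 (-1071175) (-59985800000) 321234458916 14990941416080000 (-17837471456280000)
    (by
      intro x
      rw [← hx x]
      push_cast
      ring)
  have p0 : ∑ k, r k ^ 0 = (6 : ℂ) := n0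
  have p1 : ∑ k, r k ^ 1 = (60000 : ℂ) := by rw [n1]
  have p2 : ∑ k, r k ^ 2 = (3602142350 : ℂ) := by rw [n2]; norm_num
  have p3 : ∑ k, r k ^ 3 = (216012854100000 : ℂ) := by rw [n3, p2, p1]; norm_num
  have p4 : ∑ k, r k ^ 4 = (12961029337893925586 : ℂ) := by rw [n4, p3, p2, p1]; norm_num
  have p5 : ∑ k, r k ^ 5 = (777677126132687018100000 : ℂ) := by rw [n5, p4, p3, p2, p1]; norm_num
  have p6 : ∑ k, r k ^ 6 = (46661553137130028884618570950 : ℂ) := by
    have := n6 0
    norm_num only at this
    rw [this, p5, p4, p3, p2, p1, p0]; norm_num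
  have p7 : ∑ k, r k ^ 7 = (2799748723419532760456074478100000 : ℂ) := by
    have := n6 1
    norm_num only at this
    rw [this, p6, p5, p4, p3, p2, p1]; norm_num
  have p8 : ∑ k, r k ^ 8 = (167988255584571908441053702671317141474 : ℂ) := by
    have := n6 2
    norm_num only at this
    rw [this, p7, p6, p5, p4, p3, p2]; norm_num
  have p9 : ∑ k, r k ^ 9 = (10079495269804143964978826817843548189220000 : ℂ) := by
    have := n6 3
    norm_num only at this
    rw [this, p8, p7, p6, p5, p4, p3]; norm_num
  have p10 : ∑ k, r k ^ 10 = (604781712509995798589771202548703058764192401750 : ℂ) := by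
    have := n6 4
    norm_num only at this
    rw [this, p9, p8, p7, p6, p5, p4]; norm_num
  rw [prod_sq_eq_det, ← detB]
  congr 1
  ext i j
  fin_cases i <;> fin_cases j <;>
    first
    | exact p0
    | exact p1
    | exact p2
    | exact p3
    | exact p4
    | exact p5
    | exact p6
    | exact p7
    | exact p8
    | exact p9
    | exact p10

lemma valueC (r : Fin 6 → ℂ)
    (h : Polynomial.derivative (∏ i : Fin 7, (Polynomial.X - Polynomial.C ((zc 700000 i : ℝ) : ℂ))) =
      Polynomial.C ((7 : ℕ) : ℂ) * ∏ j : Fin 6, (Polynomial.X - Polynomial.C (r j))) :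
    ∏ a : Fin 6, ∏ b ∈ Finset.Ioi a, (r a - r b) ^ 2 = 25747697329954890717594505724064540097122716978643930485040001140521864586305972295565894713648033042923520000 := by
  have hx := expand 700000 r h
  obtain ⟨n0, n1, n2, n3, n4, n5, n6⟩ := newton r 600000 (-1071175) (-599858000000) 321234458916 149909414160800000 (-17837471456280000)
    (by
      intro x
      rw [← hx x]
      push_cast
      ring)
  have p0 : ∑ k, r k ^ 0 = (6 : ℂ) := n0
  have p1 : ∑ k, r k ^ 1 = (600000 : ℂ) := by rw [n1]
  have p2 : ∑ k, r k ^ 2 = (360002142350 : ℂ) := by rw [n2]; norm_num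
  have p3 : ∑ k, r k ^ 3 = (216000128541000000 : ℂ) := by rw [n3, p2, p1]; norm_num
  have p4 : ∑ k, r k ^ 4 = (129600102833809893925586 : ℂ) := by rw [n4, p3, p2, p1]; norm_num
  have p5 : ∑ k, r k ^ 5 = (77760077124615326870181000000 : ℂ) := by rw [n5, p4, p3, p2, p1]; norm_num
  have p6 : ∑ k, r k ^ 6 = (46656055529728543443358631418570950 : ℂ) := by
    have := n6 0
    norm_num only at this
    rw [this, p5, p4, p3, p2, p1, p0]; norm_num
  have p7 : ∑ k, r k ^ 7 = (27993638870813835378843738320744781000000 : ℂ) := by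
    have := n6 1
    norm_num only at this
    rw [this, p6, p5, p4, p3, p2, p1]; norm_num
  have p8 : ∑ k, r k ^ 8 = (16796186654274987907018510103559754575317141474 : ℂ) := by
    have := n6 2
    norm_num only at this
    rw [this, p7, p6, p5, p4, p3, p2]; norm_num
  have p9 : ∑ k, r k ^ 9 = (10077713991637401299360104919747901768035481892200000 : ℂ) := by
    have := n6 3
    norm_num only at this
    rw [this, p8, p7, p6, p5, p4, p3]; norm_num
  have p10 : ∑ k, r k ^ 10 = (6046629594426123841145912215605933682427226274194192401750 : ℂ) := by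
    have := n6 4
    norm_num only at this
    rw [this, p9, p8, p7, p6, p5, p4]; norm_num
  rw [prod_sq_eq_det, ← detC]
  congr 1
  ext i j
  fin_cases i <;> fin_cases j <;>
    first
    | exact p0
    | exact p1
    | exact p2
    | exact p3
    | exact p4
    | exact p5
    | exact p6
    | exact p7
    | exact p8
    | exact p9
    | exact p10

end Pool.Agent.Lib.MP_8e46bf_ag
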