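import Mathlib
import Pool.Agent.Lib.MP_8e46bf_ag.Values

set_option autoImplicit false

namespace Pool.Agent.Lib.MP_8e46bf_ag

open Finset Polynomial

lemma exists_roots (t : ℝ) : ∃ r : Fin 6 → ℂ,
    Polynomial.derivative (∏ i : Fin 7, (Polynomial.X - Polynomial.C ((zc t i : ℝ) : ℂ))) =
      Polynomial.C ((7 : ℕ) : ℂ) * ∏ j : Fin 6, (Polynomial.X - Polynomial.C (r j)) := by
  set w : ℂ[X] := ∏ i : Fin 7, (Polynomial.X - Polynomial.C ((zc t i : ℝ) : ℂ)) with hwdef
  have hw : w.Monic := monic_prod_of_monic _ _ (fun i _ => monic_X_sub_C _)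
  have hd : w.natDegree = 7 := by
    rw [hwdef, natDegree_prod_of_monic _ _ (fun i _ => monic_X_sub_C _)]
    simp
  have hd' : (derivative w).natDegree = 6 := by
    rw [natDegree_derivative, hd]
  have hs := IsAlgClosed.splits (derivative w)
  have hl : (derivative w).leadingCoeff = ((7 : ℕ) : ℂ) := by
    rw [leadingCoeff, hd', coeff_derivative]
    have : w.coeff (6 + 1) = 1 := by
      have := hw.coeff_natDegree
      rwa [hd] at this
    rw [this]
    norm_num
  have hc := hs.natDegree_eq_card_roots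
  rw [hd'] at hc
  have hlen : (derivative w).roots.toList.length = 6 := by
    rw [Multiset.length_toList, ← hc]
  refine ⟨fun j => (derivative w).roots.toList.get (Fin.cast hlen.symm j), ?_⟩
  conv_lhs => rw [hs.eq_prod_roots, hl]
  congr 1
  conv_lhs => rw [← Multiset.coe_toList (derivative w).roots]
  rw [Multiset.map_coe, Multiset.prod_coe, ← List.prod_ofFn]
  congr 1
  apply List.ext_get
  · simp [hlen]
  · intro n h1 h2
    simp only [List.get_eq_getElem, List.getElem_map, List.getElem_ofFn, Fin.val_cast]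

/-- Two points of the configuration, the difference at parameter `t`. -/
def fac (t : ℝ) (p : Fin 7 × Fin 7) : ℝ := zc t p.1 - zc t p.2

/-- The product of differences attached to a list of pairs. -/
def prodf (t : ℝ) (l : List (Fin 7 × Fin 7)) : ℝ := (l.map (fac t)).prod

/-- Number of factors involving the moving point. -/
def cnt (l : List (Fin 7 × Fin 7)) : ℕ :=
  (l.map (fun p => if (p.1 = 6 ∧ p.2 ≠ 6) ∨ (p.1 ≠ 6 ∧ p.2 = 6) then 1 else 0)).sum

lemma fac_bound1 (p : Fin 7 × Fin 7) :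
    (fac 70000 p) ^ 2 ≤
      ((70714 / 700 : ℝ) ^ 2) ^ (if (p.1 = 6 ∧ p.2 ≠ 6) ∨ (p.1 ≠ 6 ∧ p.2 = 6) then 1 else 0) *
        (fac 0 p) ^ 2 := by
  obtain ⟨i, j⟩ := p
  fin_cases i <;> fin_cases j <;> simp [fac, zc] <;> norm_num

lemma fac_bound2 (p : Fin 7 × Fin 7) :
    (fac 70000 p) ^ 2 ≤
      ((70714 / 700714 : ℝ) ^ 2) ^ (if (p.1 = 6 ∧ p.2 ≠ 6) ∨ (p.1 ≠ 6 ∧ p.2 = 6) then 1 else 0) *
        (fac 700000 p) ^ 2 := by
  obtain ⟨i, j⟩ := p
  fin_cases i <;> fin_cases j <;> simp [fac, zc] <;> norm_num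

lemma prodf_bound1 (l : List (Fin 7 × Fin 7)) :
    (prodf 70000 l) ^ 2 ≤ ((70714 / 700 : ℝ) ^ 2) ^ (cnt l) * (prodf 0 l) ^ 2 := by
  induction l with
  | nil => simp [prodf, cnt]
  | cons p l ih =>
    simp only [prodf, cnt, List.map_cons, List.prod_cons, List.sum_cons, mul_pow, pow_add] at ih ⊢
    calc _ ≤ _ := mul_le_mul (fac_bound1 p) ih (by positivity) (by positivity)
      _ = _ := by ring

lemma prodf_bound2 (l : List (Fin 7 × Fin 7)) :
    (prodf 70000 l) ^ 2 ≤ ((70714 / 700714 : ℝ) ^ 2) ^ (cnt l) * (prodf 700000 l) ^ 2 := by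
  induction l with
  | nil => simp [prodf, cnt]
  | cons p l ih =>
    simp only [prodf, cnt, List.map_cons, List.prod_cons, List.sum_cons, mul_pow, pow_add] at ih ⊢
    calc _ ≤ _ := mul_le_mul (fac_bound2 p) ih (by positivity) (by positivity)
      _ = _ := by ring

lemma prodf_bound (l : List (Fin 7 × Fin 7)) :
    (prodf 70000 l) ^ 2 ≤ ((70714 / 700 : ℝ) ^ 2) ^ 5 * (prodf 0 l) ^ 2 +
      ((70714 / 700714 : ℝ) ^ 2) ^ 6 * (prodf 700000 l) ^ 2 := by
  rcases le_or_gt (cnt l) 5 with h | h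
  · have h1 : ((70714 / 700 : ℝ) ^ 2) ^ (cnt l) ≤ ((70714 / 700 : ℝ) ^ 2) ^ 5 :=
      pow_le_pow_right₀ (by norm_num) h
    have h2 := mul_le_mul_of_nonneg_right h1 (sq_nonneg (prodf 0 l))
    have h3 := prodf_bound1 l
    have h4 : 0 ≤ ((70714 / 700714 : ℝ) ^ 2) ^ 6 * (prodf 700000 l) ^ 2 := by positivity
    linarith
  · have h1 : ((70714 / 700714 : ℝ) ^ 2) ^ (cnt l) ≤ ((70714 / 700714 : ℝ) ^ 2) ^ 6 :=
      pow_le_pow_of_le_one (by norm_num) (by norm_num) h
    have h2 := mul_le_mul_of_nonneg_right h1 (sq_nonneg (prodf 700000 l))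
    have h3 := prodf_bound2 l
    have h4 : 0 ≤ ((70714 / 700 : ℝ) ^ 2) ^ 5 * (prodf 0 l) ^ 2 := by positivity
    linarith

end Pool.Agent.Lib.MP_8e46bf_ag
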